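import Pool.Agent.Lib.H53M.Fin2
import Pool.Agent.Lib.H53M.T2F
import Pool.Agent.Lib.H53M.T3

/-!
# Infinitely many ordinary primes for the cusp forms of level one with rational coefficients

For `k = 12` the theorem says that `p` does not divide `τ(p)` for infinitely many primes `p`.
-/

namespace Pool.Agent.Results.MP_0dad22_ag.OrdinaryTau

open UpperHalfPlane MatrixGroups Filter Topology

/-- `p` is prime and the Hecke polynomial `X² - a X + p^(k-1)` has two roots in `ℤ_p`, of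
valuations `0` and `k - 1`, that is, its Newton polygon has the slopes `0` and `k - 1`. -/
def Ordinary (k p : ℕ) (a : ℤ) : Prop :=
  ∃ _ : Fact p.Prime, ∃ x y : ℤ_[p], x + y = (a : ℤ_[p]) ∧ x * y = (p : ℤ_[p]) ^ (k - 1) ∧
    x.valuation = 0 ∧ y.valuation = k - 1

theorem result (k : ℕ) (hk : k = 12 ∨ k = 16 ∨ k = 18 ∨ k = 20 ∨ k = 22 ∨ k = 26)
    (f : CuspForm 𝒮ℒ (k : ℤ)) (hf : (qExpansion 1 (f : ℍ → ℂ)).coeff 1 = 1) :
    ∃ a : ℕ → ℤ, (∀ n, (qExpansion 1 (f : ℍ → ℂ)).coeff n = (a n : ℂ)) ∧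
      (∀ p : ℕ, Ordinary k p (a p) ↔ p.Prime ∧ ¬ (p : ℤ) ∣ a p) ∧
      {p : ℕ | Ordinary k p (a p)}.Infinite ∧
      ¬ Tendsto (fun X : ℕ => ({p : ℕ | p ≤ X ∧ Ordinary k p (a p)}.ncard : ℝ) *
        Real.log X / Real.sqrt X) atTop (𝓝 0) := by
  obtain ⟨a, b, h6⟩ := H53M.Fin2_six hk
  have h12 : 2 ≤ k := by omega
  have hord : ∀ p : ℕ, Ordinary k p (H53M.ak a b p) ↔ p.Prime ∧ ¬ (p : ℤ) ∣ H53M.ak a b p := by
    intro p
    constructor
    · rintro ⟨hp, h⟩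
      exact ⟨hp.out, (H53M.Fin2_ord h12 _).1 h⟩
    · rintro ⟨hp, h⟩
      haveI : Fact p.Prime := ⟨hp⟩
      exact ⟨⟨hp⟩, (H53M.Fin2_ord h12 _).2 h⟩
  have hmain : ¬ Tendsto (fun X : ℕ =>
      ({p : ℕ | p ≤ X ∧ Ordinary k p (H53M.ak a b p)}.ncard : ℝ) *
        Real.log X / Real.sqrt X) atTop (𝓝 0) := by
    have h := H53M.Fin2_main H53M.T2F H53M.T3 h6
    have hset : ∀ X : ℕ, {p : ℕ | p ≤ X ∧ Ordinary k p (H53M.ak a b p)} =
        {p : ℕ | p ≤ X ∧ p.Prime ∧ ¬ (p : ℤ) ∣ H53M.ak a b p} := by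
      intro X
      ext p
      simp only [Set.mem_setOf_eq, hord p]
    simpa only [hset] using h
  exact ⟨H53M.ak a b, H53M.Fin2_coeff h6 f hf, hord, H53M.Fin2_inf hmain, hmain⟩

end Pool.Agent.Results.MP_0dad22_ag.OrdinaryTau
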